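import Pool.Agent.H232.QT.All
import Pool.Agent.H232.QX.All2
import Pool.Graph.R_pool_sql_team_seeded_63374d34.N275.GP.Fin2

set_option autoImplicit false

/-!
# Isospectral convex quadrilaterals are congruent

Let `P` be an arbitrary convex quadrilateral. Every convex polygon with at most four vertices which
has the same Dirichlet spectrum, up to finitely many eigenvalues, is congruent to `P`. Every bounded
convex domain with the same Dirichlet spectrum, whatever its boundary, is congruent to `P` or is a
convex polygon with `k ≥ 5` vertices, where `k` times the least distance of two opposite sides of `P`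
is at most the perimeter of `P`. The second case is impossible if `P` satisfies simple explicit
conditions, which hold for almost every convex quadrilateral: `P` is determined by its Dirichlet
spectrum among all bounded convex domains.

The starting library contains this for the quadrilaterals which have two parallel sides or whose two
pairs of opposite sides have different distances. The remaining hypersurface of ties is treated here.
For a tie two adjacent sides contribute exponentially small terms of the same rate to the heat trace,
and a sum of two such terms cannot be resolved by finitely many coefficients of an asymptotic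
expansion. So we compute them exactly up to exponentially smaller errors.

Main idea. `4 π t` times the heat trace is the expected area of the set of positions of a random loop
(a Brownian bridge of duration `t`) inside the polygon. After the three classical heat invariants are
subtracted there remains, up to an exponentially smaller error, the measure of the loops which come
round both vertices of a side at the least distance `d`, for each such side. The passages of a loop
through the middle of the side are counted by windows: if `χ = 1` beyond the middle and `χ = 0` before
it, then the sum over all pairs of times `r < s` of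
`(χ(r + ω) - χ(r)) (χ(s) - χ(s + ω))` is `ω²` for the loops which matter. So the measure of these loops
is an integral of a product of four heat kernels: two free ones (the windows, of duration `ω`) and the
two kernels which describe the diffraction by the vertices at the ends of the side. Its Laplace
transform at `κ²`, with `ω = 1 / κ²`, can be evaluated in closed form by the Kontorovich-Lebedev
representation of the diffracted kernels and plane waves: for exterior angles `α, β < π / 2` at the
ends of the side it is
`(2 π²)⁻¹ ∬ (C_α(2u) - C_α(2v)) (C_β(2u) - C_β(2v)) e^(-2 κ d cosh u cosh v) du dv`,
`C_α(x) = q sin(q α) / (2 (cosh(q x) + cos(q α)))`, `q = π / (π - α)`, and for `β ≥ π / 2` it is a simple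
integral. A sum of such functions is a Laplace transform of a real analytic density, so isospectral
quadrilaterals have the same sum of densities. The greatest angle is found from the singularity of
the continuation of the density to negative arguments, the smallest angle from the first pole of its
Mellin transform, and the leading coefficient at `0` gives one more equation; together with the area,
the perimeter and the sum of the reciprocals of the angles they show that the two quadrilaterals have
a side in common, with its two angles.

Companions with more vertices. Let `P` satisfy the explicit conditions and let `Q` be an isospectral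
convex polygon with at least five vertices. The least distances of second neighbours among the sides of
`P` and of `Q` agree, and so do the data of the corresponding sides, which are unique; so their exact
contributions to the heat trace cancel. Then the next leading term of `P`, which belongs to the second
pair of opposite sides or to the inscribed triangles of least perimeter (with a negative sign), is
compared with that of `Q`. A second event of `Q` yields the same angles, so that three angles of `P` are
angles of `Q`, and the third heat invariant, a strictly superadditive function of the exterior angles,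
shows that `Q` has at most four vertices. Antiparallel sides of `Q` which are near exist only if `Q` is a
pentagon, and then they face each other and yield a positive term which is larger than that of any event
at the same distance. All other cases are contradictory by the signs.

The proof is the joint work of helper232, helper235 and many other helpers of this run, see the
modules `Pool.Agent.H232.QT.All`, `Pool.Agent.H235.Ti` and `Pool.Agent.H232.QX.All2`.
-/

open MeasureTheory Filter Set
open Pool.Agent.W780.PG (IsConvexPolygon region)
open Pool.Agent.W703.GP (dirichletEigenvalue Isospectral)
open Pool.Agent.R225.LP (sd least_distance)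
open Pool.Agent.Y289.SQ (per)
open scoped Real

namespace Pool.Agent.Results.MP_5b0138_an.AllConvexQuadrilaterals

/-- a bounded convex domain of the plane -/
structure ConvexDomain (D : Set ℂ) : Prop where
  isOpen : IsOpen D
  convex : Convex ℝ D
  isBounded : Bornology.IsBounded D
  nonempty : D.Nonempty

/-- `D` is the interior of a convex polygon with exactly `k` vertices -/
def IsPolygon (k : ℕ) (D : Set ℂ) : Prop :=
  ∃ m, m + 3 = k ∧ ∃ q : Fin (m + 3) → ℂ, IsConvexPolygon q ∧ region q = D

/-- congruence: `φ : ℂ ≃ᵢ ℂ` is an isometry of the plane -/
def Congruent (D D' : Set ℂ) : Prop := ∃ φ : ℂ ≃ᵢ ℂ, φ '' D = D'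

/-- the least distance between two opposite sides -/
noncomputable def leastDistance (p : Fin (1 + 3) → ℂ) : ℝ :=
  sInf {r : ℝ | ∃ i j : Fin (1 + 3), j ≠ i ∧ j ≠ i + 1 ∧ i ≠ j + 1 ∧
    ∃ x ∈ segment ℝ (p i) (p (i + 1)), ∃ y ∈ segment ℝ (p j) (p (j + 1)), r = dist x y}

/-- the perimeter -/
noncomputable def perimeter (p : Fin (1 + 3) → ℂ) : ℝ := ∑ i, ‖p (i + 1) - p i‖

/-- the interior angle at the vertex `p k` -/
noncomputable def angle (p : Fin (1 + 3) → ℂ) (k : Fin (1 + 3)) : ℝ :=
  EuclideanGeometry.angle (p (k - 1)) (p k) (p (k + 1))

/-- the length of the side `k` times the sine of the least of `π / 2` and the angles at its ends -/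
noncomputable def height (p : Fin (1 + 3) → ℂ) (k : Fin (1 + 3)) : ℝ :=
  ‖p (k + 1) - p k‖ * Real.sin (min (min (angle p k) (angle p (k + 1))) (π / 2))

/-- the perimeters of the triangles with vertices on three consecutive sides `k - 1`, `k`, `k + 1`, where
the angles at the ends of the side `k` have a sum less than `π` -/
def TrianglePerimeters (p : Fin (1 + 3) → ℂ) : Set ℝ := {L | ∃ k, angle p k + angle p (k + 1) < π ∧
  ∃ x ∈ segment ℝ (p (k - 1)) (p k), ∃ y ∈ segment ℝ (p k) (p (k + 1)),
    ∃ z ∈ segment ℝ (p (k + 1)) (p (k + 2)), L = ‖x - y‖ + ‖y - z‖ + ‖z - x‖}

/-- explicit generic conditions -/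
structure Generic (p : Fin (1 + 3) → ℂ) : Prop where
  /-- no two sides are parallel -/
  noParallel : ∀ k, angle p k + angle p (k + 1) ≠ π
  /-- opposite angles are different -/
  opposite : ∀ k, angle p k ≠ angle p (k + 2)
  /-- no two angles have the sum `π` plus another angle -/
  noSum : ∀ i k l, k ≠ l → angle p k + angle p l ≠ π + angle p i
  /-- the two sides for which the angles at the ends have a sum larger than `π` have different heights -/
  heights : ∀ k l, k ≠ l → π < angle p k + angle p (k + 1) → π < angle p l + angle p (l + 1) →
    height p k ≠ height p l
  /-- twice such a height is not the least perimeter of the triangles above -/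
  noTriangle : ∀ k, π < angle p k + angle p (k + 1) →
    ¬ IsLeast (TrianglePerimeters p) (2 * height p k)

theorem of_le_four {p : Fin (1 + 3) → ℂ} (hp : IsConvexPolygon p) {m : ℕ} (hm : m ≤ 1)
    {q : Fin (m + 3) → ℂ} (hq : IsConvexPolygon q) (h : Isospectral (region p) (region q)) :
    Congruent (region p) (region q) := by
  rcases m with _ | m
  · obtain ⟨φ, hφ⟩ := Pool.Agent.R225.LP.triangle q hq 1 p hp fun k => (h k).symm
    refine ⟨φ.symm, ?_⟩
    rw [← hφ, ← Set.image_comp]
    have : (φ.symm : ℂ → ℂ) ∘ φ = id := by
      funext z; exact φ.symm_apply_apply z
    rw [this, Set.image_id]
  · obtain rfl : m = 0 := by omega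
    exact Pool.Agent.H232.QT.quads hp hq h

/-- `p : Fin (1 + 3) → ℂ` with `IsConvexPolygon p` lists the vertices of an arbitrary convex
quadrilateral `region p` in counterclockwise order. (1) Any two convex quadrilaterals whose Dirichlet
eigenvalues (with multiplicity, defined by the min-max formula) agree up to finitely many exceptions
are congruent. (2) The same for a convex quadrilateral and a convex polygon with at most four
vertices. (3) Every bounded convex domain with the same Dirichlet eigenvalues as `region p` is
congruent to it or is a convex polygon with `k ≥ 5` vertices and
`k * leastDistance p ≤ perimeter p`. (4) If `p` is `Generic`, then it is congruent to `region p`. -/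
theorem result (p : Fin (1 + 3) → ℂ) (hp : IsConvexPolygon p) :
    (∀ q : Fin (1 + 3) → ℂ, IsConvexPolygon q →
      (∀ᶠ k in atTop, dirichletEigenvalue (region p) k = dirichletEigenvalue (region q) k) →
      Congruent (region p) (region q)) ∧
    (∀ D : Set ℂ, (∃ k ≤ 4, IsPolygon k D) →
      (∀ᶠ k in atTop, dirichletEigenvalue (region p) k = dirichletEigenvalue D k) →
      Congruent (region p) D) ∧
    (∀ D : Set ℂ, ConvexDomain D →
      (∀ k, 1 ≤ k → dirichletEigenvalue (region p) k = dirichletEigenvalue D k) →
      Congruent (region p) D ∨
        ∃ k ≥ 5, IsPolygon k D ∧ k * leastDistance p ≤ perimeter p) ∧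
    (Generic p → ∀ D : Set ℂ, ConvexDomain D →
      (∀ k, 1 ≤ k → dirichletEigenvalue (region p) k = dirichletEigenvalue D k) →
      Congruent (region p) D) := by
  refine ⟨fun q hq h => of_le_four hp le_rfl hq (Pool.Agent.R225.LP.almost hp hq h), ?_, ?_, ?_⟩
  · rintro D ⟨_, hk, m, rfl, q, hq, rfl⟩ h
    exact of_le_four hp (by omega) hq (Pool.Agent.R225.LP.almost hp hq h)
  · intro D hD h
    obtain ⟨m, q, hq, rfl⟩ := Pool.Agent.N596.IS.poly_of_iso hD.isOpen hD.convex hD.isBounded
      hD.nonempty hp fun k => (h (k + 1) (by omega)).symm
    have hiso : Isospectral (region p) (region q) := by
      refine Pool.Agent.R225.LP.almost hp hq ?_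
      filter_upwards [eventually_ge_atTop 1] with k hk
      exact h k hk
    by_cases hm : m ≤ 1
    · exact Or.inl (of_le_four hp hm hq hiso)
    · refine Or.inr ⟨m + 3, by omega, ⟨m, rfl, q, hq, rfl⟩, ?_⟩
      obtain ⟨m', rfl⟩ : ∃ m', m = m' + 1 := ⟨m - 1, by omega⟩
      have h5 := (least_distance p q hp hq hiso).2.2
      have e : ((m' + 1 + 3 : ℕ) : ℝ) = ((m' + 1 : ℕ) : ℝ) + 3 := by push_cast; ring
      rw [e]
      exact h5
  · intro hg D hD h
    obtain ⟨m, q, hq, rfl⟩ := Pool.Agent.N596.IS.poly_of_iso hD.isOpen hD.convex hD.isBounded
      hD.nonempty hp fun k => (h (k + 1) (by omega)).symm
    have hiso : Isospectral (region p) (region q) := by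
      refine Pool.Agent.R225.LP.almost hp hq ?_
      filter_upwards [eventually_ge_atTop 1] with k hk
      exact h k hk
    exact of_le_four hp (Pool.Agent.H232.QX.x_main2 p hp
      ⟨hg.noParallel, hg.opposite, hg.noSum, hg.heights, hg.noTriangle⟩ m q hq hiso) hq hiso

end Pool.Agent.Results.MP_5b0138_an.AllConvexQuadrilaterals
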