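import Pool.Agent.H232.GA.All4
import Pool.Agent.H232.QX.H
import Pool.Graph.R_pool_sql_team_seeded_63374d34.N596.IS.A12
import Pool.Graph.R_seed8.R225.LP.AJ

set_option autoImplicit false

/-!
# Almost every convex polygon is determined by its spectrum among all convex domains, up to exceptions
on explicit hypersurfaces

Theorem. For almost every convex `N`-gon `P`, for each `N`, all convex domains with the same Dirichlet
spectrum, with any boundary and any number of vertices, are congruent to `P`, except possibly polygons
with more than `N` vertices which have a side of the same length and with the same angles at its ends as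
a side of `P`, and which are on one of the following explicit hypersurfaces: there is a side such that
the sum of the angles at its ends is equal to `π`, or there are two angles at most `π / 2` with an
altitude in common.

Let `A` be the area of `P`, `L` its perimeter and `S` the sum of `(π - α)² / α` over its angles `α` (a
heat invariant). `P` is called blunt if `S < π`, which is the case if all angles are larger than 120°,
or `L² < (8 + 2 π) A`, or `2 L² < (25 + S) A`. The blunt `N`-gons form an open set, which contains a
neighbourhood of each regular `N`-gon with `N ≥ 5`; near every convex domain there are blunt `N`-gons for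
every large `N`. For blunt `P` there are no exceptions: almost every blunt convex `N`-gon is determined
up to congruence by its Dirichlet spectrum among all bounded convex domains. There are no exceptions
for `N = 4`, either: almost every convex quadrilateral is determined among all bounded convex domains;
the same holds for almost every convex pentagon such that the angles at the ends of each side have a sum
larger than `π`.

It was known that almost every convex `N`-gon is determined among the polygons with at most `N`
vertices. The point is that companions with more vertices are excluded.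

Idea. Let `Q` be a convex polygon isospectral to `P`. By a measure theoretic lemma (almost every point
of a closed set is an accumulation point, along each of countably many flows, of the points of its
orbit in this set), for almost every `P` there are isospectral pairs `(P', Q')` arbitrarily near
`(P, Q)`, where `P'` is obtained from `P` by changing the lengths of a few sides, or by turning the
sides between two vertices. The heat traces of `P`, `P'`, `Q`, `Q'` are compared: `4 π t` times the heat
trace is the expected area of the set of positions of a random loop inside the domain, and is given by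
an exact counting identity. One proves by induction that the lengths and angles of certain sides of
`P'` determine those of certain sides of `Q'`. In each step the leading terms which do not cancel are
sums of explicit densities, one for each pair of sides with one unknown side between them at the least
distance. By the linear independence of these densities all events of `Q` persist in `Q'`, and the
event of `P`, which is unique for generic `P` and vanishes for a suitable `P'`, has a counterpart in
`Q`, with the same pair of angles; by turning the sides of `P` between two vertices one sees that these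
are angles of `Q`, too. As long as at least four sides are unknown, inscribed triangles do not
interfere, since each pair of unknown sides yields a nearer event, and antiparallel sides of `Q` which
are near would have known angles on both sides, which contradicts the change of the third heat
invariant. If three consecutive sides of `P` are left whose normals positively span the plane, then
either the next event of `P` or `Q` is nearer than all inscribed triangles of `P`, or the inscribed
triangles of `P` yield a negative term, which becomes larger if the three sides are shortened, whereas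
the corresponding change for `Q` has the other sign; if three consecutive sides of `Q` are left, too,
then the first three heat invariants are contradictory, by an inequality for the angles of two
triangles. In the end all angles of `P` but one are angles of `Q`. Since the third heat invariant is
superadditive, `Q` has at most as many vertices as `P`, and the known theorem applies.

For quadrilaterals and these pentagons no perturbation is needed. The first events of `P` and `Q` have the same data, so that
their exact contributions to the heat trace cancel. Then the next leading term of `P`, which belongs to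
its second event or to the inscribed triangles, is compared with that of `Q`: a second event of `Q`
yields the same angles, and so on, until all angles of `P` but one are angles of `Q`; antiparallel sides
of `Q` which are near exist only if exactly four sides of `Q` are left, and then they face each other and
yield a term which is larger than that of any event at the same distance; all other cases are
contradictory by the signs.

The proof is the joint work of helper232 and helper686, helper738, helper591, helper199, helper183,
helper627, helper354, helper337, helper722, helper283, helper389, helper296, helper115, helper353,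
helper227, helper539, helper376, helper696, helper215, helper333, helper307, helper618, helper980,
helper390, helper628, helper878, helper23, helper294, helper94, helper120, helper668, helper720,
helper47, helper385, helper974, helper81, helper764, helper580, helper825, helper75, helper382,
helper743, helper399, helper597, helper284, helper998, helper685, helper276, helper274, helper713,
helper789, helper164, helper314, helper593, helper20, helper746, helper348, helper972, and of the
helpers who contributed to the projects DS, FI and QT.
-/

open Set MeasureTheory Filter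
open Pool.Agent.W780.PG (IsConvexPolygon region)
open Pool.Agent.W703.GP (dirichletEigenvalue)
open scoped Real

namespace Pool.Agent.Results.MP_5b0138_an.AlmostEveryConvexPolygon

/-- a bounded convex domain of the plane -/
structure ConvexDomain (K : Set ℂ) : Prop where
  isOpen : IsOpen K
  convex : Convex ℝ K
  isBounded : Bornology.IsBounded K
  nonempty : K.Nonempty

/-- all Dirichlet eigenvalues, with multiplicity, agree; if `K` is a polygon (the interior of the
convex hull of finitely many points), then finitely many exceptions are allowed -/
def SameSpectrum (P K : Set ℂ) : Prop :=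
  (∀ k : ℕ, 1 ≤ k → dirichletEigenvalue P k = dirichletEigenvalue K k) ∨
    (∃ S : Set ℂ, S.Finite ∧ K = interior (convexHull ℝ S)) ∧
      ∀ᶠ k in atTop, dirichletEigenvalue P k = dirichletEigenvalue K k

/-- congruence: `φ : ℂ ≃ᵢ ℂ` is an isometry of the plane -/
def Congruent (P K : Set ℂ) : Prop := ∃ φ : ℂ ≃ᵢ ℂ, φ '' P = K

/-- the length of the side from `p k` to `p (k + 1)` -/
noncomputable def side {n : ℕ} (p : Fin (n + 3) → ℂ) (k : Fin (n + 3)) : ℝ := ‖p (k + 1) - p k‖

/-- the interior angle at the vertex `p k` -/
noncomputable def vertexAngle {n : ℕ} (p : Fin (n + 3) → ℂ) (k : Fin (n + 3)) : ℝ :=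
  EuclideanGeometry.angle (p (k - 1)) (p k) (p (k + 1))

/-- the perimeter -/
noncomputable def perimeter {n : ℕ} (p : Fin (n + 3) → ℂ) : ℝ := ∑ k, side p k

/-- the area -/
noncomputable def area {n : ℕ} (p : Fin (n + 3) → ℂ) : ℝ := (volume (region p)).toReal

/-- the sum of `(π - α)² / α` over all angles `α` -/
noncomputable def defect {n : ℕ} (p : Fin (n + 3) → ℂ) : ℝ :=
  ∑ k, (π - vertexAngle p k) ^ 2 / vertexAngle p k

/-- the angles are large, or the isoperimetric quotient is small -/
def Blunt {n : ℕ} (p : Fin (n + 3) → ℂ) : Prop :=
  defect p < π ∨ perimeter p ^ 2 < (8 + 2 * π) * area p ∨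
    2 * perimeter p ^ 2 < (25 + defect p) * area p

/-- the altitudes at the vertex `q k`: the distance of each of its two neighbours from the line through
the other neighbour and `q k` -/
noncomputable def altitudes {m : ℕ} (q : Fin (m + 3) → ℂ) (k : Fin (m + 3)) : Set ℝ :=
  {‖q (k + 1) - q k‖ * Real.sin (vertexAngle q k), ‖q (k - 1) - q k‖ * Real.sin (vertexAngle q k)}

/-- `q` has a side of the same length and with the same angles at its ends as a side of `p` -/
def CommonSide {n m : ℕ} (p : Fin (n + 3) → ℂ) (q : Fin (m + 3) → ℂ) : Prop := ∃ j k,
  side q k = side p j ∧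
    ((vertexAngle q k = vertexAngle p j ∧ vertexAngle q (k + 1) = vertexAngle p (j + 1)) ∨
      (vertexAngle q k = vertexAngle p (j + 1) ∧ vertexAngle q (k + 1) = vertexAngle p j))

/-- `K` is the interior of a convex polygon with more vertices than `p` and a side in common with it,
where the sum of the angles at the ends of some side is `π`, or two angles at most `π / 2` have an
altitude in common -/
def Exceptional {n : ℕ} (p : Fin (n + 3) → ℂ) (K : Set ℂ) : Prop := ∃ m, n + 3 < m + 3 ∧
  ∃ q : Fin (m + 3) → ℂ, IsConvexPolygon q ∧ region q = K ∧ CommonSide p q ∧
    ((∃ k, vertexAngle q k + vertexAngle q (k + 1) = π) ∨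
      ∃ k l, k ≠ l ∧ vertexAngle q k ≤ π / 2 ∧ vertexAngle q l ≤ π / 2 ∧
        (altitudes q k ∩ altitudes q l).Nonempty)

theorem ex_eq {n : ℕ} {p : Fin (n + 3) → ℂ} (hp : IsConvexPolygon p) (i : Fin (n + 3)) :
    Pool.Agent.H232.DS.ex p i = π - vertexAngle p i :=
  ((Pool.Agent.H232.DS.z_EA n p hp).1 i).2.2

theorem eg_eq {n : ℕ} {p : Fin (n + 3) → ℂ} (hp : IsConvexPolygon p) :
    Pool.Agent.H232.GA.Eg p = defect p := by
  refine Finset.sum_congr rfl fun i _ => ?_
  rw [ex_eq hp, sub_sub_cancel]

theorem of_not_nt {m : ℕ} {q : Fin (m + 3) → ℂ} (hq : IsConvexPolygon q)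
    (h : ¬ Pool.Agent.H232.GA.NT q) : ∃ k l, k ≠ l ∧ vertexAngle q k ≤ π / 2 ∧
      vertexAngle q l ≤ π / 2 ∧ (altitudes q k ∩ altitudes q l).Nonempty := by
  unfold Pool.Agent.H232.GA.NT at h
  push Not at h
  obtain ⟨k, l, hk, hl, x, hx, hx', hkl⟩ := h
  have e : ∀ i, Pool.Agent.H232.DS.ex q i = π - vertexAngle q i := fun i =>
    ((Pool.Agent.H232.DS.z_EA m q hq).1 i).2.2
  have key : ∀ i, x ∈ Pool.Agent.H232.GA.alt q i → x ∈ altitudes q i := by
    intro i hi
    have h1 : Real.sin (Pool.Agent.H232.DS.ex q i) = Real.sin (vertexAngle q i) := by
      rw [e i, Real.sin_pi_sub]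
    unfold Pool.Agent.H232.GA.alt at hi
    rw [h1] at hi
    rcases hi with hi | hi
    · exact Or.inl hi
    · right
      rw [Set.mem_singleton_iff] at hi ⊢
      rw [hi, Pool.Agent.N275.GP.ln, sub_add_cancel, norm_sub_rev]
  refine ⟨k, l, hkl, ?_, ?_, x, key k hx, key l hx'⟩
  · have := e k
    linarith
  · have := e l
    linarith

theorem blunt_iff {n : ℕ} {p : Fin (n + 3) → ℂ} (hp : IsConvexPolygon p) :
    Blunt p ↔ Pool.Agent.H232.GA.Rn4 p := by
  have h0 := eg_eq hp
  constructor
  · rintro (h | h | h)
    · exact Or.inl (Or.inl (by rw [← h0] at h; exact h))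
    · exact Or.inl (Or.inr h)
    · exact Or.inr (by unfold Pool.Agent.H232.GA.Rnd3; rw [h0]; exact h)
  · rintro ((h | h) | h)
    · exact Or.inl (by rw [← h0]; exact h)
    · exact Or.inr (Or.inl h)
    · exact Or.inr (Or.inr (by unfold Pool.Agent.H232.GA.Rnd3 at h; rw [h0] at h; exact h))

/-- convex domains isospectral to polygons are polygons -/
theorem poly {n : ℕ} {p : Fin (n + 3) → ℂ} (hp : IsConvexPolygon p) {K : Set ℂ}
    (hK : ConvexDomain K) (hspec : SameSpectrum (region p) K) :
    ∃ (m : ℕ) (q : Fin (m + 3) → ℂ), IsConvexPolygon q ∧ region q = K ∧
      Pool.Agent.W703.GP.Isospectral (region p) (region q) := by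
  rcases hspec with hs | ⟨⟨S, hS, rfl⟩, hs⟩
  · obtain ⟨m, q, hq, e⟩ := Pool.Agent.N596.IS.poly_of_iso hK.isOpen hK.convex hK.isBounded
      hK.nonempty hp fun k => (hs (k + 1) (by omega)).symm
    refine ⟨m, q, hq, e, Pool.Agent.R225.LP.almost hp hq ?_⟩
    rw [e]
    filter_upwards [eventually_ge_atTop 1] with k hk
    exact hs k hk
  · obtain ⟨m, q, hq, e⟩ := Pool.Agent.Y459.HI.vs S hS hK.nonempty
    refine ⟨m, q, hq, e, Pool.Agent.R225.LP.almost hp hq ?_⟩
    rw [e]
    exact hs

/-- `p : Fin (n + 3) → ℂ` with `IsConvexPolygon p` lists the vertices of a convex polygon with `n + 3`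
vertices in counterclockwise order, `region p` is its interior. -/
theorem result :
    (∀ n : ℕ, ∀ᵐ p : Fin (n + 3) → ℂ, IsConvexPolygon p →
      ∀ K : Set ℂ, ConvexDomain K → SameSpectrum (region p) K →
        Congruent (region p) K ∨ Exceptional p K) ∧
    (∀ n : ℕ, ∀ᵐ p : Fin (n + 3) → ℂ, IsConvexPolygon p →
      (n + 3 ≤ 4 ∨ (n + 3 = 5 ∧ ∀ k, π < vertexAngle p k + vertexAngle p (k + 1)) ∨ Blunt p) →
      ∀ K : Set ℂ, ConvexDomain K → SameSpectrum (region p) K → Congruent (region p) K) ∧
    (∀ n : ℕ, ∃ δ : ℝ, 0 < δ ∧ ∀ p : Fin (n + 2 + 3) → ℂ,
      (∀ k, ‖p k - Complex.exp (2 * π * ((k : ℕ) / (n + 5) : ℝ) * Complex.I)‖ < δ) →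
      IsConvexPolygon p ∧ Blunt p) ∧
    ∀ D : Set ℂ, ConvexDomain D → ∀ ε : ℝ, 0 < ε → ∃ n₀ : ℕ, ∀ n ≥ n₀,
      ∃ U : Set (Fin (n + 3) → ℂ), IsOpen U ∧ U.Nonempty ∧ ∀ p ∈ U, IsConvexPolygon p ∧
        Metric.hausdorffDist (region p) D < ε ∧ Blunt p ∧ ∀ k, 2 * π / 3 < vertexAngle p k := by
  refine ⟨fun n => ?_, fun n => ?_, fun n => ?_, fun D hD ε hε => ?_⟩
  · filter_upwards [Pool.Agent.H232.QX.x_main4 n] with p h hp K hK hspec
    obtain ⟨m, q, hq, rfl, hiso⟩ := poly hp hK hspec
    rcases h hp m q hq hiso with h1 | ⟨h1, h2, j, k, h6, h7⟩
    · exact Or.inl h1
    · have hcs : CommonSide p q := by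
        refine ⟨j, k, h6, ?_⟩
        have e1 := ex_eq hp j
        have e2 := ex_eq hp (j + 1)
        have e3 := ex_eq hq k
        have e4 := ex_eq hq (k + 1)
        rcases h7 with ⟨h7, h8⟩ | ⟨h7, h8⟩
        · left
          constructor <;> linarith
        · right
          constructor <;> linarith
      refine Or.inr ⟨m, by omega, q, hq, rfl, hcs, ?_⟩
      by_cases h3 : Pool.Agent.H232.GA.NT q
      · left
        have h4 : Pool.Agent.H232.GA.PP q := by
          by_contra h5
          exact h2 ⟨h5, h3⟩
        obtain ⟨j, hj⟩ := h4
        refine ⟨j, ?_⟩
        have e := Pool.Agent.H232.GA.ap_sum hq hj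
        have e1 := ex_eq hq j
        have e2 := ex_eq hq (j + 1)
        linarith
      · exact Or.inr (of_not_nt hq h3)
  · have hq4 : ∀ᵐ p : Fin (n + 3) → ℂ, IsConvexPolygon p →
        (n + 3 ≤ 4 ∨ (n + 3 = 5 ∧ ∀ k, π < vertexAngle p k + vertexAngle p (k + 1))) →
        ∀ (m : ℕ) (q : Fin (m + 3) → ℂ), IsConvexPolygon q →
          Pool.Agent.W703.GP.Isospectral (region p) (region q) →
          ∃ φ : ℂ ≃ᵢ ℂ, φ '' region p = region q := by
      obtain rfl | rfl | rfl | hn : n = 0 ∨ n = 1 ∨ n = 2 ∨ 3 ≤ n := by omega
      · exact Filter.Eventually.of_forall fun p hp _ m q hq hiso =>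
          Pool.Agent.R225.LP.triangle p hp m q hq hiso
      · exact Pool.Agent.H232.QX.x_main.mono fun p h hp _ => h hp
      · refine Pool.Agent.H232.QX.x_main3.mono fun p h hp hc => ?_
        rcases hc with hc | ⟨-, hc⟩
        · omega
        · refine h hp fun i => ?_
          have h1 := hc i
          have h2 := ex_eq hp i
          have h3 := ex_eq hp (i + 1)
          linarith
      · exact Filter.Eventually.of_forall fun p _ hc => by
          exfalso
          rcases hc with hc | ⟨hc, -⟩ <;> omega
    filter_upwards [Pool.Agent.H232.GA.g_main3 n, hq4] with p h h4 hp hB K hK hspec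
    obtain ⟨m, q, hq, rfl, hiso⟩ := poly hp hK hspec
    rw [← or_assoc] at hB
    rcases hB with hn | hB
    · exact h4 hp hn m q hq hiso
    have hR := (blunt_iff hp).1 hB
    have hpa := (Pool.Agent.H232.GA.cc4' Pool.Agent.H232.DS.z_EA
      Pool.Agent.H232.DS.z_BN ⟨hp, hq, hiso⟩ hR).1
    rcases h hp hpa m q hq hiso with h1 | ⟨-, -, h3⟩
    · exact h1
    · exact absurd hR h3
  · obtain ⟨δ, hδ, h⟩ := Pool.Agent.H232.GA.near_reg n
    refine ⟨δ, hδ, fun p hp => ?_⟩
    obtain ⟨h1, h2⟩ := h p hp
    exact ⟨h1, (blunt_iff h1).2 h2⟩
  · obtain ⟨n₀, h⟩ := Pool.Agent.H232.GA.g_DN D hD.isOpen hD.convex hD.isBounded hD.nonempty ε hε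
    refine ⟨n₀, fun n hn => ?_⟩
    obtain ⟨U, h1, h2, h3⟩ := h n hn
    refine ⟨U, h1, h2, fun p hp => ?_⟩
    obtain ⟨hc, hd, hk⟩ := h3 p hp
    refine ⟨hc, hd, (blunt_iff hc).2 (Or.inl (Pool.Agent.H232.GA.rnd_of hc fun k => (hk k).1)), fun k => ?_⟩
    have h4 := (hk k).1
    have h5 := ex_eq hc k
    linarith

end Pool.Agent.Results.MP_5b0138_an.AlmostEveryConvexPolygon
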