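import Pool.Agent.H232.FI.Cls
import Pool.Agent.H233.FI.NKQ
import Pool.Agent.H232.DS.All
import Pool.Agent.H232.GA.G2

set_option autoImplicit false

/-!
# Every convex polygon has only finitely many isospectral convex companions without a common altitude

Let `P` be an arbitrary convex polygon. Up to congruence only finitely many bounded convex domains with
the same Dirichlet spectrum as `P` do not have two acute angles with an altitude in common; in
particular there are only finitely many with at most one acute angle. If `P` is blunt, which is the case for all
polygons near a regular `N`-gon with `N ≥ 5` and for all polygons with angles larger than 120°, then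
`P` is isospectral to only finitely many convex domains, without exception. No genericity is assumed:
parallel sides, equal distances, equal angles are allowed. For polygons with at least five vertices
it was only known that almost every polygon is determined among the polygons with at most as many
vertices, which does not say anything about the spectrum of a given polygon.

Idea. A convex domain isospectral to `P` is a polygon, and the number of its vertices is bounded.
Suppose that there is an infinite set of pairwise isospectral, pairwise non-congruent `N`-gons.
`4 π t` times the heat trace is the expected area of the set of positions of a random loop inside the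
polygon. By an exact counting identity it is a polynomial with the heat invariants as coefficients plus
the expected areas of the sets of positions where the loop sticks out beyond two sides `a, b`, not
beyond the sides between them, minus the one where it sticks out in all directions, plus the one where
it sticks out beyond two antiparallel sides only. The terms which involve only sides which are the same
for all polygons of an infinite subset cancel. Of the other terms, the leading ones belong to the
pairs `a, b` of least distance, finitely many, all with only one side `j` between them which is not yet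
known; the triangles inscribed in the polygon have a perimeter larger than twice this distance and
antiparallel sides a larger distance, as long as four sides are unknown, except in one case. By
the closed formula for the leading terms (project QT) the sum of the explicit densities of these pairs
is the same for all polygons of the family. These densities are linearly independent for different
pairs of angles less than `π / 2`: their continuations to the plane are singular at `-cos² Θ`, where
`Θ` is the larger one of the two angles, and the jump there determines the other angle. So these pairs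
of angles take only finitely many values on the family. For an event with a larger angle the smaller
angle and one sum are determined, which suffices if there is only one acute angle. Hence on an infinite
subset one more side is known, with its angles. In the end at most three sides are unknown, or four with
a pair of parallel ones: then the area, the perimeter, the sum of the angles and the sum of their
reciprocals leave only finitely many polygons. The isoperimetric inequality of Lhuilier and an
inequality between the tangent and the third heat invariant show that a companion of a blunt polygon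
does not have two acute angles.

The proof is the joint work of helper232 and many other helpers of this run (see the imports of
`Pool.Agent.H232.FI.All` and `Pool.Agent.H232.QT.All`).
-/

open MeasureTheory Filter Set
open Pool.Agent.W780.PG (IsConvexPolygon region ang)
open Pool.Agent.W703.GP (dirichletEigenvalue Isospectral)
open scoped Real

namespace Pool.Agent.Results.MP_5b0138_an.FinitelyManyCompanions

/-- a bounded convex domain of the plane -/
structure ConvexDomain (D : Set ℂ) : Prop where
  isOpen : IsOpen D
  convex : Convex ℝ D
  isBounded : Bornology.IsBounded D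
  nonempty : D.Nonempty

/-- congruence: `φ : ℂ ≃ᵢ ℂ` is an isometry of the plane -/
def Congruent (D D' : Set ℂ) : Prop := ∃ φ : ℂ ≃ᵢ ℂ, φ '' D = D'

/-- the interior angle at the vertex `q k` -/
noncomputable def angle {m : ℕ} (q : Fin (m + 3) → ℂ) (k : Fin (m + 3)) : ℝ :=
  EuclideanGeometry.angle (q (k - 1)) (q k) (q (k + 1))

/-- the altitudes at the vertex `q k`: the distance of each of its two neighbours from the line through
the other neighbour and `q k` -/
noncomputable def altitudes {m : ℕ} (q : Fin (m + 3) → ℂ) (k : Fin (m + 3)) : Set ℝ :=
  {‖q (k + 1) - q k‖ * Real.sin (angle q k), ‖q (k - 1) - q k‖ * Real.sin (angle q k)}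

/-- `D` is the interior of a convex polygon with at least five vertices, which has two acute angles
with an altitude in common -/
def CommonAltitude (D : Set ℂ) : Prop := ∃ m, 2 ≤ m ∧ ∃ q : Fin (m + 3) → ℂ, IsConvexPolygon q ∧
  region q = D ∧ ∃ k l, k ≠ l ∧ angle q k < π / 2 ∧ angle q l < π / 2 ∧
    (altitudes q k ∩ altitudes q l).Nonempty

/-- the perimeter -/
noncomputable def perimeter {n : ℕ} (p : Fin (n + 3) → ℂ) : ℝ := ∑ k, ‖p (k + 1) - p k‖

/-- the area -/
noncomputable def area {n : ℕ} (p : Fin (n + 3) → ℂ) : ℝ := (volume (region p)).toReal

/-- the third heat invariant, up to constants: the sum of `(π - α)² / α` over all angles `α` -/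
noncomputable def defect {n : ℕ} (p : Fin (n + 3) → ℂ) : ℝ := ∑ k, (π - angle p k) ^ 2 / angle p k

/-- `S < π` or `L² < (8 + 2 π) A` or `2 L² < (25 + S) A`, for the perimeter `L`, the area `A` and the sum
`S` over the angles -/
def Blunt {n : ℕ} (p : Fin (n + 3) → ℂ) : Prop :=
  defect p < π ∨ perimeter p ^ 2 < (8 + 2 * π) * area p ∨
    2 * perimeter p ^ 2 < (25 + defect p) * area p

theorem ex_eq {n : ℕ} {p : Fin (n + 3) → ℂ} (hp : IsConvexPolygon p) (i : Fin (n + 3)) :
    Pool.Agent.H232.DS.ex p i = π - angle p i :=
  ((Pool.Agent.H232.DS.z_EA n p hp).1 i).2.2

theorem eg_eq {n : ℕ} {p : Fin (n + 3) → ℂ} (hp : IsConvexPolygon p) :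
    Pool.Agent.H232.GA.Eg p = defect p := by
  refine Finset.sum_congr rfl fun i _ => ?_
  rw [ex_eq hp, sub_sub_cancel]

/-- companions of blunt polygons do not have two acute angles -/
theorem no_two {n m : ℕ} {p : Fin (n + 3) → ℂ} {q : Fin (m + 3) → ℂ} (hp : IsConvexPolygon p)
    (hq : IsConvexPolygon q) (hiso : Isospectral (region p) (region q)) (hB : Blunt p)
    {k l : Fin (m + 3)} (hkl : k ≠ l) (hk : angle q k < π / 2) (hl : angle q l < π / 2) : False := by
  have hR : Pool.Agent.H232.GA.Rn4 p := by
    rcases hB with h | h | h
    · exact Or.inl (Or.inl (by rw [← eg_eq hp] at h; exact h))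
    · exact Or.inl (Or.inr h)
    · refine Or.inr ?_
      unfold Pool.Agent.H232.GA.Rnd3
      rw [eg_eq hp]
      exact h
  have h1 := (Pool.Agent.H232.GA.cc4 Pool.Agent.H232.DS.z_EA Pool.Agent.H232.DS.z_BN
    ⟨hp, hq, hiso⟩ hR).2 k l hkl
  rw [ex_eq hq, ex_eq hq] at h1
  linarith

theorem alt_mem {m : ℕ} {q : Fin (m + 3) → ℂ} {k : Fin (m + 3)} {x : ℝ}
    (hx : x ∈ ({Pool.Agent.N275.GP.ln q k, Pool.Agent.N275.GP.ln q (k - 1)} : Set ℝ)) :
    x * Real.sin (ang q k) ∈ altitudes q k := by
  rcases hx with rfl | hx
  · exact Or.inl rfl
  · right
    rw [Set.mem_singleton_iff] at hx ⊢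
    rw [hx, Pool.Agent.N275.GP.ln, sub_add_cancel, norm_sub_rev]
    rfl

/-- `p : Fin (n + 3) → ℂ` with `IsConvexPolygon p` lists the vertices of an arbitrary convex polygon
`region p` in counterclockwise order. There is a finite set `F` of convex polygons isospectral to
`region p` such that every bounded convex domain with the same Dirichlet eigenvalues (with
multiplicity, min-max formula) is congruent to an element of `F` or has two acute angles with an
altitude in common; the latter is impossible if `p` is blunt. For convex polygons it is enough that the
eigenvalues agree up to finitely many exceptions. All polygons near a regular one with at least five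
vertices are blunt. -/
theorem result : (∀ (n : ℕ) (p : Fin (n + 3) → ℂ), IsConvexPolygon p →
    ∃ F : Set (Set ℂ), F.Finite ∧
      (∀ E ∈ F, ConvexDomain E ∧ (∃ (m : ℕ) (q : Fin (m + 3) → ℂ), IsConvexPolygon q ∧ region q = E) ∧
        ∀ k, 1 ≤ k → dirichletEigenvalue (region p) k = dirichletEigenvalue E k) ∧
      (∀ D : Set ℂ, ConvexDomain D →
        (∀ k, 1 ≤ k → dirichletEigenvalue (region p) k = dirichletEigenvalue D k) →
        (∃ E ∈ F, Congruent E D) ∨ (¬ Blunt p ∧ CommonAltitude D)) ∧
      ∀ (m : ℕ) (q : Fin (m + 3) → ℂ), IsConvexPolygon q →
        (∀ᶠ k in atTop, dirichletEigenvalue (region p) k = dirichletEigenvalue (region q) k) →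
        (∃ E ∈ F, Congruent E (region q)) ∨ (¬ Blunt p ∧ CommonAltitude (region q))) ∧
    ∀ n : ℕ, ∃ δ : ℝ, 0 < δ ∧ ∀ p : Fin (n + 2 + 3) → ℂ,
      (∀ k, ‖p k - Complex.exp (2 * π * ((k : ℕ) / (n + 5) : ℝ) * Complex.I)‖ < δ) →
      IsConvexPolygon p ∧ Blunt p := by
  refine ⟨fun n p hp => ?_, fun n => ?_⟩
  · obtain ⟨F, hF, h1, h2⟩ := Pool.Agent.H232.FI.fin_classes
      (Pool.Agent.H232.FI.y_IN (Pool.Agent.H233.FI.NKQ.h_NKQ Pool.Agent.H232.FI.y_NKW)) p hp
    have key : ∀ (m : ℕ) (q : Fin (m + 3) → ℂ), IsConvexPolygon q →
        Isospectral (region p) (region q) →
        (∃ E ∈ F, Congruent E (region q)) ∨ (¬ Blunt p ∧ CommonAltitude (region q)) := by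
      intro m q hq hiso
      rcases h2 m q hq hiso with h | ⟨hm, k, l, hkl, hk, hl, x, hx, y, hy, hxy⟩
      · exact Or.inl h
      · refine Or.inr ⟨fun hB => no_two hp hq hiso hB hkl hk hl, m, hm, q, hq, rfl, k, l, hkl, hk, hl,
          x * Real.sin (ang q k), ?_, ?_⟩
        · exact alt_mem hx
        · rw [hxy]
          exact alt_mem hy
    refine ⟨F, hF, fun E hE => ?_, fun D hD h => ?_, fun m q hq h => ?_⟩
    · obtain ⟨m, q, hq, hiso, rfl⟩ := h1 E hE
      exact ⟨⟨Pool.Agent.W688.GP.region_open q, Pool.Agent.W688.GP.region_convex q,
        Pool.Agent.W688.GP.region_bdd q, Pool.Agent.W688.GP.region_ne q hq⟩, ⟨m, q, hq, rfl⟩,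
        fun k _ => hiso k⟩
    · obtain ⟨m, q, hq, rfl⟩ := Pool.Agent.N596.IS.poly_of_iso hD.isOpen hD.convex hD.isBounded
        hD.nonempty hp fun k => (h (k + 1) (by omega)).symm
      have hiso : Isospectral (region p) (region q) := by
        refine Pool.Agent.R225.LP.almost hp hq ?_
        filter_upwards [eventually_ge_atTop 1] with k hk
        exact h k hk
      exact key m q hq hiso
    · exact key m q hq (Pool.Agent.R225.LP.almost hp hq h)
  · obtain ⟨δ, hδ, h⟩ := Pool.Agent.H232.GA.near_reg n
    refine ⟨δ, hδ, fun p hp => ?_⟩
    obtain ⟨h1, h2⟩ := h p hp
    refine ⟨h1, ?_⟩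
    rcases h2 with (h2 | h2) | h2
    · exact Or.inl (by rw [← eg_eq h1]; exact h2)
    · exact Or.inr (Or.inl h2)
    · refine Or.inr (Or.inr ?_)
      unfold Pool.Agent.H232.GA.Rnd3 at h2
      rw [eg_eq h1] at h2
      exact h2

end Pool.Agent.Results.MP_5b0138_an.FinitelyManyCompanions
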