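import Pool.Agent.H232.DS.All
import Pool.Graph.R_pool_sql_team_seeded_63374d34.N596.NR.V
import Pool.Graph.R_pool_sql_team_seeded_63374d34.N596.NR.N
import Pool.Graph.R_pool_sql_team_seeded_63374d34.N596.IS.A12
import Pool.Graph.R_seed8.R225.LP.AJ

set_option autoImplicit false

/-!
# The sides of roomy polygons are audible among all convex domains

A convex polygon `P` with `N ≥ 5` vertices is called roomy (with the parameter `m`) if its angles are
obtuse, each side is shorter than `1 - cos α` times each other side for all angles `α`, the perimeter
`p` is less than `m + 1` times each side, and `2 p l < 4 A + m tan (π / m) l ^ 2` for the area `A` and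
all lengths `l` of sides. These are explicit open conditions; all polygons which are near enough to the
regular `N`-gon satisfy them, with `m = N`. Each bounded convex domain with the same Dirichlet spectrum
as a roomy polygon `P` is a convex `N`-gon with the same sides, in some order, each of them with the same
length and the same two angles at its ends. If the angles of `P` are pairwise different or if `N = 5`,
then it is congruent to `P`. In particular every convex pentagon near the regular one is determined by
its spectrum among all bounded convex domains, without exceptions: sides and angles may be equal.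

Idea. `4 π t` times the heat trace is the expected area of the set of positions of a random loop inside
the domain. A convex domain isospectral to `P` is a polygon `Q` with at most `m` vertices. A refinement
of Bonnesen's inequality shows that there is an inscribed disc of `Q` which is so large that all
triangles inscribed in `Q` with vertices on three sides and all pairs of antiparallel sides only
contribute terms which are exponentially smaller than the contributions of the sides of `P`. By an exact
counting identity the heat traces are then sums over the pairs of sides with less than `π` between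
them. By induction on the length, the sides of `P` and `Q` are matched: if all shorter sides of `P` have
counterparts in `Q`, their contributions cancel. The leading ones of the remaining terms belong to the
shortest remaining sides of `P` and to the least distances of pairs of sides of `Q`, with one side `j`
between them which is not yet matched. By the closed formula for these terms (project QT) the sums of
the explicit densities of these two finite families agree. These densities are linearly independent
for different pairs of angles less than `π / 2`, and a larger angle is seen as a singularity, which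
does not occur for `P`. So the events of `Q` are single sides with the same length and the same pairs
of angles, with multiplicity. For pentagons the order of the sides is determined by the condition that
the polygon closes up.

The proof is the joint work of helper232, helper870, helper385, helper539, helper738, helper962,
helper120, helper643, helper354, helper694, helper323, helper113, helper805, helper115, helper187, and
of the helpers who contributed to the projects FI and QT.
-/

open Set MeasureTheory Filter
open Pool.Agent.W780.PG (IsConvexPolygon region ang)
open Pool.Agent.W703.GP (dirichletEigenvalue)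
open Pool.Agent.H232.DS
open scoped Real

namespace Pool.Agent.Results.MP_5b0138_an.RoomyPolygons

/-- a bounded convex domain of the plane -/
structure ConvexDomain (K : Set ℂ) : Prop where
  isOpen : IsOpen K
  convex : Convex ℝ K
  isBounded : Bornology.IsBounded K
  nonempty : K.Nonempty

/-- all Dirichlet eigenvalues, with multiplicity, agree; if `K` is a polygon (the interior of the
convex hull of finitely many points), then finitely many exceptions are allowed -/
def SameSpectrum (P K : Set ℂ) : Prop :=
  (∀ k : ℕ, 1 ≤ k → dirichletEigenvalue P k = dirichletEigenvalue K k) ∨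
    (∃ S : Set ℂ, S.Finite ∧ K = interior (convexHull ℝ S)) ∧
      ∀ᶠ k in atTop, dirichletEigenvalue P k = dirichletEigenvalue K k

/-- the length of the side from `p k` to `p (k + 1)` -/
noncomputable def side {n : ℕ} (p : Fin (n + 3) → ℂ) (k : Fin (n + 3)) : ℝ := ‖p (k + 1) - p k‖

/-- the interior angle at the vertex `p k` -/
noncomputable def vertexAngle {n : ℕ} (p : Fin (n + 3) → ℂ) (k : Fin (n + 3)) : ℝ :=
  EuclideanGeometry.angle (p (k - 1)) (p k) (p (k + 1))

/-- the perimeter -/
noncomputable def perimeter {n : ℕ} (p : Fin (n + 3) → ℂ) : ℝ := ∑ k, side p k

/-- the area -/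
noncomputable def area {n : ℕ} (p : Fin (n + 3) → ℂ) : ℝ := (volume (region p)).toReal

/-- roomy polygons: explicit open conditions on the angles, the sides, the perimeter, the area -/
structure Roomy {n : ℕ} (m : ℕ) (p : Fin (n + 3) → ℂ) : Prop where
  obtuse : ∀ k, π / 2 < vertexAngle p k
  ratio : ∀ i j k, side p i < (1 - Real.cos (vertexAngle p k)) * side p j
  number : ∀ j, perimeter p < (m + 1) * side p j
  large : ∀ i, 2 * perimeter p * side p i < 4 * area p + m * Real.tan (π / m) * side p i ^ 2

/-- `q` has the same sides as `p`, in some order, with the same lengths and the same two angles at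
their ends -/
def SameSides {n : ℕ} (p q : Fin (n + 3) → ℂ) : Prop :=
  ∃ σ : Equiv.Perm (Fin (n + 3)), ∀ k, side q k = side p (σ k) ∧
    ((vertexAngle q k = vertexAngle p (σ k) ∧ vertexAngle q (k + 1) = vertexAngle p (σ k + 1)) ∨
      (vertexAngle q k = vertexAngle p (σ k + 1) ∧ vertexAngle q (k + 1) = vertexAngle p (σ k)))

theorem roomy_iff {n m : ℕ} {p : Fin (n + 3) → ℂ} : Roomy m p ↔ Rm0 m p :=
  ⟨fun h => ⟨h.obtuse, h.ratio, h.number, h.large⟩,
    fun h => ⟨h.angle, h.ratio, h.number, h.large⟩⟩

/-- `IsConvexPolygon p` says that `p` lists the `N = n + 5` vertices of a convex polygon in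
counterclockwise order, and `region p` is its interior. -/
theorem result (n : ℕ) :
    (∀ (m : ℕ) (p : Fin (n + 2 + 3) → ℂ), IsConvexPolygon p → Roomy m p →
      ∀ K : Set ℂ, ConvexDomain K → SameSpectrum (region p) K →
        (∃ q : Fin (n + 2 + 3) → ℂ, IsConvexPolygon q ∧ SameSides p q ∧ region q = K) ∧
        (Function.Injective (vertexAngle p) ∨ n = 0 → ∃ φ : ℂ ≃ᵢ ℂ, φ '' region p = K)) ∧
    ∃ δ : ℝ, 0 < δ ∧ ∀ p : Fin (n + 2 + 3) → ℂ,
      (∀ k, ‖p k - Complex.exp (2 * π * ((k : ℕ) / (n + 5) : ℝ) * Complex.I)‖ < δ) →
      IsConvexPolygon p ∧ Roomy (n + 5) p := by
  constructor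
  · intro m p hp hR K hK hspec
    obtain ⟨ω, s, L, hR'⟩ := rmy_of z_EA hp (roomy_iff.1 hR)
    -- the domain is a polygon
    have hpoly : ∃ (m : ℕ) (q : Fin (m + 3) → ℂ), IsConvexPolygon q ∧ region q = K ∧
        Pool.Agent.W703.GP.Isospectral (region p) (region q) := by
      rcases hspec with hs | ⟨⟨S, hS, rfl⟩, hs⟩
      · obtain ⟨m, q, hq, e⟩ := Pool.Agent.N596.IS.poly_of_iso hK.isOpen hK.convex hK.isBounded
          hK.nonempty hp fun k => (hs (k + 1) (by omega)).symm
        refine ⟨m, q, hq, e, Pool.Agent.R225.LP.almost hp hq ?_⟩
        rw [e]
        filter_upwards [eventually_ge_atTop 1] with k hk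
        exact hs k hk
      · obtain ⟨m, q, hq, e⟩ := Pool.Agent.Y459.HI.vs S hS hK.nonempty
        refine ⟨m, q, hq, e, Pool.Agent.R225.LP.almost hp hq ?_⟩
        rw [e]
        exact hs
    obtain ⟨m', q, hq, rfl, hiso⟩ := hpoly
    obtain ⟨q', hq', hreg, hS⟩ := z_DS n m' p q ω s L m hR' hq hiso
    have hsid := sides_of z_EA hp hq' hS
    refine ⟨⟨q', hq', ?_, hreg⟩, ?_⟩
    · obtain ⟨σ, hσ, hk⟩ := hsid
      exact ⟨Equiv.ofBijective σ (Finite.injective_iff_bijective.1 hσ), hk⟩
    · rintro (hang | rfl)
      · rw [← hreg]
        exact Pool.Agent.N596.NR.congr_of_sides hp hq' hsid hang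
      · rw [← hreg]
        exact z_P5 p q' hp hq' hS
  · obtain ⟨δ, hδ, h⟩ := z_NR n
    refine ⟨δ, hδ, fun p hp => ?_⟩
    obtain ⟨ω, s, L, hR⟩ := h p hp
    have h1 := of_rmy z_EA z_RL hR
    exact ⟨hR.conv, roomy_iff.2 h1⟩

end Pool.Agent.Results.MP_5b0138_an.RoomyPolygons
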